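import Pool.Agent.Helper78.TW.StB

/-!
# Project TW, module Alg: the bound at all levels
-/

set_option autoImplicit false

namespace Pool.Agent.Helper67.TW

open Pool.Agent.Helper14.CV Pool.Agent.Helper28.WK Pool.Agent.Helper78.TW

/-- A symbol of level `2^n` is a symbol of level `2^m`, `n ≤ m`. -/
private theorem sym_mono {R : Type} [AddCommGroup R] {n m : ℕ} (h : n ≤ m) {G : ℤ → ℤ → R}
    (hG : Sym 0 n G) : Sym 0 m G :=
  ⟨hG.1, fun a b c d hd hb hc => hG.2 a b c d hd hb ((pow_dvd_pow 2 h).trans hc)⟩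

/-- Module ALG. -/
theorem hAlg : StAlg := by
  intro hS hB A _ _ _ ι h2 hι D c hc hc0
  obtain ⟨n1, Gs, hn1, hGs, hz, hdiv⟩ := hS A inferInstance inferInstance inferInstance ι hι D c hc hc0
  refine ⟨2 ^ (n1 / 2 + 1) * 3 + 2 ^ (n1 / 2 + 1) * (2 ^ (n1 / 2 + 1) + 1), ?_⟩
  intro n r H hH hli hph
  have h1 : 1 ≤ 2 ^ (n / 2) := Nat.one_le_two_pow
  by_cases hn : n1 ≤ n
  · have h := hB A inferInstance inferInstance inferInstance ι h2 hι D c hc n1 Gs hn1 hGs hz hdiv n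
      hn r H hH hli hph
    calc r ≤ 2 ^ (n1 / 2 + 1) * (2 ^ (n / 2 + 1) + 1) := h
      _ ≤ 2 ^ (n1 / 2 + 1) * (3 * 2 ^ (n / 2)) := by
          refine Nat.mul_le_mul_left _ ?_
          rw [pow_succ]
          omega
      _ = (2 ^ (n1 / 2 + 1) * 3) * 2 ^ (n / 2) := by ring
      _ ≤ (2 ^ (n1 / 2 + 1) * 3 + 2 ^ (n1 / 2 + 1) * (2 ^ (n1 / 2 + 1) + 1)) * 2 ^ (n / 2) :=
          Nat.mul_le_mul_right _ (Nat.le_add_right _ _)
  · have hle : n ≤ n1 := by omega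
    have h := hB A inferInstance inferInstance inferInstance ι h2 hι D c hc n1 Gs hn1 hGs hz hdiv n1
      le_rfl r H (fun b => sym_mono hle (hH b)) hli hph
    calc r ≤ 2 ^ (n1 / 2 + 1) * (2 ^ (n1 / 2 + 1) + 1) := h
      _ ≤ 2 ^ (n1 / 2 + 1) * 3 + 2 ^ (n1 / 2 + 1) * (2 ^ (n1 / 2 + 1) + 1) := Nat.le_add_left _ _
      _ ≤ (2 ^ (n1 / 2 + 1) * 3 + 2 ^ (n1 / 2 + 1) * (2 ^ (n1 / 2 + 1) + 1)) * 2 ^ (n / 2) :=
          Nat.le_mul_of_pos_right _ h1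

end Pool.Agent.Helper67.TW
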